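import Pool.Agent.TreeS.SmoothOff

/-!
# MP_92012e_an: the sharp exponent for maps that are smooth off a set of Assouad dimension zero

`S` is a relatively closed subset of the open set `Ω`, and `f` is continuous on `Ω`, continuously
differentiable with positive Jacobian on `Ω \ S`. Near every point of `Ω ∩ S`
* `S` has Assouad dimension zero (finite and discrete sets, geometric sequences with their limits,
  and Cantor sets whose gaps grow superexponentially are examples);
* `f` is a homeomorphism onto an open set;
* either `K_f(x) ≤ M (1 + log⁺ (1 / dist(x, S)))` for some constant `M`, as large as one likes (and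
  then nothing is assumed about the growth of `f` or of its Jacobian), or, for every `ε > 0`,
  `J_f(x) ≤ M dist(x, S)^(-M) exp (ε K_f(x))` for some `M`, as large as one likes (and then nothing
  is assumed about the growth of the distortion).

For all `n ≥ 2`:
* if `α < β` and `e^(β K_f)` is locally integrable on `Ω` then `J_f log^α(e + J_f)` and
  `|Df|^n log^(α-1)(e + |Df|)` are locally integrable on `Ω`;
* this is sharp: for every `β > 0` a homeomorphism of a ball onto an open set in this class (with
  `S` the centre), locally Lipschitz off the centre, with integrable differential and integrable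
  `e^(β K_f)`, has a non-integrable `J_f log^α(e + J_f)` near the centre for every `α ≥ β`.

The proof has three parts.
* Geometry of `S` (`assouad_shells`). Thin concentric shells about points of `S` near which most of
  a mass distribution on `S` is concentrated are nested, and for sets of Assouad dimension zero
  almost all scales at every point of `S` are of this kind and free of `S`. So there are nested
  families of shells, which miss `S`, with modulus at least `(1 - ε) log (1 / dist(x, S)) - M`.
* The isoperimetric inequality on the spheres of such families gives
  `∫ J_f (1 + log⁺ (1 / dist(x, S)))^α < ∞` near every point of `S` (`ell_integrable`); this holds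
  without any growth condition.
* If the distortion grows at most logarithmically, Gehring's lemma with explicit dependence on the
  bound `k` of the distortion (`gehring`), applied on the balls `B(y, dist(y, S) / 2)`, where
  `k = O(log (1 / dist(y, S)))`, and averaging over `y` (`whitney`) bound
  `∫ J_f log^α(e + J_f)` by the integral in the second part.
-/

namespace Pool.Agent.Results.MP_92012e_an.AssouadZero

open Pool.Agent.RayM Pool.Agent.TreeS MeasureTheory Metric Set

theorem result (n : ℕ) (hn : 2 ≤ n) :
    (∀ (α β : ℝ) (S Ω : Set (E n)) (f : E n → E n), IsOpen Ω → 0 < β → α < β →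
      SmoothOff S Ω f →
      LocallyIntegrableOn (fun x => Real.exp (β * distortion f x)) Ω → Regular α Ω f) ∧
    ∀ β : ℝ, 0 < β → ∃ (R : ℝ) (f : E n → E n), 0 < R ∧ Emb f (ball 0 R) ∧
      SmoothOff {0} (ball 0 R) f ∧
      LocallyLipschitzOn (ball 0 R \ {0}) f ∧
      IntegrableOn (fun x => ‖fderiv ℝ f x‖) (ball 0 R) ∧
      IntegrableOn (fun x => Real.exp (β * distortion f x)) (ball 0 R) ∧
      ∀ α, β ≤ α → ∀ r, 0 < r →
        ¬ IntegrableOn (fun x => jac f x * Real.log (Real.exp 1 + jac f x) ^ α) (ball 0 r) := by
  refine ⟨fun α β S Ω f hΩ hβ hαβ hf hexp => regular_smoothOff hn hΩ hf hβ hαβ hexp, ?_⟩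
  intro β hβ
  have h1 := integrableOn_exp_exG hn one_pos (exactAngular_id hn) hβ
  rw [one_mul] at h1
  exact ⟨_, radF n β, Real.exp_pos _, emb_radF hn hβ, smoothOff_radF hn hβ,
    locallyLipschitzOn_exG (angular_id hn) hβ, integrableOn_norm_exG hn (angular_id hn) hβ, h1,
    fun α hα r hr => not_jlog_exG hn one_pos (exactAngular_id hn) hβ hα hr⟩

end Pool.Agent.Results.MP_92012e_an.AssouadZero
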