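import Pool.Agent.TreeS.OffEx

/-!
# MP_92012e_an: the sharp exponent for homeomorphisms that are smooth off a shellable set

`S` is a relatively closed null set in `Ω`, and `f` is continuous on `Ω`, continuously
differentiable with positive Jacobian on `Ω \ S`, and a homeomorphism onto an open set near every
point of `S`. The Jacobian is polynomially bounded near `S`: for every `ε > 0` it is at most
`M dist(x, S)^(-M) exp (ε K_f(x))` for some `M`, which may be large. The set `S` is shellable with
constant `lam ≥ 1` near its points: for every `ε ∈ (0, 1)` there is a countable nested family of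
round shells with centres in `S` which do not meet `S`, whose total modulus `T(x)` around `x` is at
least `((1 - ε) log (1 / dist(x, S)) - M) / lam`. Discrete sets are shellable with `lam = 1`
(`shellable_point`).

For all `n ≥ 2`:
* if `lam α < β` and `e^(β K_f)` is locally integrable then `J_f log^α(e + J_f)` and
  `|Df|^n log^(α-1)(e + |Df|)` are locally integrable;
* for `lam = 1` this is sharp: for every `β > 0` a homeomorphism of a ball onto an open set in this
  class (with `S` the centre), locally Lipschitz off the centre, with integrable differential and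
  integrable `e^(β K_f)`, has a non-integrable `J_f log^α(e + J_f)` near the centre for `α ≥ β`.

The proof: on the sphere of radius `τ` about `a` the isoperimetric inequality and Hölder's
inequality give `n |f(B_τ)| ≤ τ k(τ) ∫_(∂B_τ) J_f` with the spherical mean `k` of order `n - 1` of
`K_f`; the weights `exp (θ ∫ dτ / (τ k(τ)))`, `θ < n`, multiply over the nested family and the sum
telescopes, so `∫ J_f exp (θ Σ ∫ dτ / (τ k_i(τ))) ≤ n / (n - θ) ∫ J_f` for every nested family;
integrability of `e^(β K_f)` bounds the weights from below by powers of the depth.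
-/

namespace Pool.Agent.Results.MP_92012e_an.OffShellable

open Pool.Agent.RayM Pool.Agent.TreeS MeasureTheory Metric Set

theorem result (n : ℕ) (hn : 2 ≤ n) :
    (∀ (lam α β : ℝ) (S Ω : Set (E n)) (f : E n → E n), 0 < lam → 0 < β → lam * α < β →
      DiffeoOff lam S Ω f →
      LocallyIntegrableOn (fun x => Real.exp (β * distortion f x)) Ω → Regular α Ω f) ∧
    ∀ β : ℝ, 0 < β → ∃ (R : ℝ) (f : E n → E n), 0 < R ∧ Emb f (ball 0 R) ∧
      DiffeoOff 1 {0} (ball 0 R) f ∧
      LocallyLipschitzOn (ball 0 R \ {0}) f ∧
      IntegrableOn (fun x => ‖fderiv ℝ f x‖) (ball 0 R) ∧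
      IntegrableOn (fun x => Real.exp (β * distortion f x)) (ball 0 R) ∧
      ∀ α, β ≤ α → ∀ r, 0 < r →
        ¬ IntegrableOn (fun x => jac f x * Real.log (Real.exp 1 + jac f x) ^ α) (ball 0 r) := by
  refine ⟨fun lam α β S Ω f hlam hβ hαβ hf hexp => regular_off hn hlam hf hβ hαβ hexp, ?_⟩
  intro β hβ
  have h1 := integrableOn_exp_exG hn one_pos (exactAngular_id hn) hβ
  rw [one_mul] at h1
  exact ⟨_, radF n β, Real.exp_pos _, emb_radF hn hβ, diffeoOff_radF hn hβ,
    locallyLipschitzOn_exG (angular_id hn) hβ, integrableOn_norm_exG hn (angular_id hn) hβ, h1,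
    fun α hα r hr => not_jlog_exG hn one_pos (exactAngular_id hn) hβ hα hr⟩

end Pool.Agent.Results.MP_92012e_an.OffShellable
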