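import Pool.Agent.RayM.Final

/-!
# MP_92012e_an: the sharp exponent for maps that send rays to rays

A ray map on an open set `U` of `ℝⁿ` with centres `a`, `b` and angular part `Ψ` has the form
`f(x) = b + c(x) Ψ(x - a)` with an arbitrary function `c ≥ 0` of all variables; `Ψ` is Lipschitz,
positively homogeneous of degree one and keeps the norm. It is continuous, absolutely continuous on
compact segments of almost every ray from `a`, almost everywhere differentiable with `J_f ≥ 0`, and
`Df = 0` almost everywhere on the set `J_f = 0` (finite distortion). The angular part has constant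
`κ` if at almost every `x` some unit vector `h` orthogonal to `x` has `κ J_Ψ ≤ |DΨ h|^n`, and it is
exact if moreover `|DΨ|^n ≤ κ J_Ψ` almost everywhere. The identity is exact with `κ = 1`, the
winding map `(r, θ, z) ↦ (r, (k+1) θ, z)` is exact with `κ = (k+1)^(n-1)`.

For all `n ≥ 2` and `β > 0`:
* if `α < κ β` and `f` is locally (with varying centres and angular parts) a ray map with
  constant `κ` for which `e^(β K_f)` is locally integrable, then `J_f log^α(e + J_f)` and
  `|Df|^n log^(α-1)(e + |Df|)` are locally integrable;
* this is sharp for every exact angular part: one ray map with this angular part on a ball, locally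
  Lipschitz off the centre, with integrable differential and integrable `e^(β K_f)`, has a
  non-integrable `J_f log^α(e + J_f)` near the centre for all `α ≥ κ β`;
* for every `k` there are exact angular parts with `κ = (k+1)^(n-1)`.
-/

namespace Pool.Agent.Results.MP_92012e_an.RayMaps

open Pool.Agent.RayM MeasureTheory Metric Set

theorem result (n : ℕ) (hn : 2 ≤ n) (β : ℝ) (hβ : 0 < β) :
    (∀ κ α : ℝ, 0 < κ → α < κ * β → Admissible n κ α β) ∧
    (∀ (κ : ℝ) (Ψ : E n → E n), 0 < κ → ExactAngular κ Ψ →
      ∃ (R : ℝ) (f : E n → E n), 0 < R ∧ RayMap (ball 0 R) 0 0 Ψ f ∧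
        LocallyLipschitzOn (ball 0 R \ {0}) f ∧
        IntegrableOn (fun x => ‖fderiv ℝ f x‖) (ball 0 R) ∧
        IntegrableOn (fun x => Real.exp (β * distortion f x)) (ball 0 R) ∧
        ∀ α, κ * β ≤ α → ∀ r, 0 < r →
          ¬ IntegrableOn (fun x => jac f x * Real.log (Real.exp 1 + jac f x) ^ α) (ball 0 r)) ∧
    ∀ k : ℕ, ∃ Ψ : E n → E n, ExactAngular (((k : ℝ) + 1) ^ (n - 1)) Ψ :=
  ⟨fun _ _ hκ hα => admissible_of_lt hn hκ hβ hα,
    fun _ _ hκ hΨ => exists_example hn hκ hΨ hβ,
    fun k => exists_exactAngular hn k⟩

end Pool.Agent.Results.MP_92012e_an.RayMaps
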