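import Pool.Agent.TreeS.Example

/-!
# MP_92012e_an: the sharp exponent for homeomorphisms controlled by nested shells

The maps are local homeomorphisms in `ℝⁿ`. Near every point there are countably many round shells
`r_i < |x - a_i| < R_i`, nested in the sense that for `i < j` the ball `B(a_j, R_j)` is disjoint
from `B(a_i, R_i)` or lies in the inner ball of the shell `i`, such that the map is continuously
differentiable with positive Jacobian on the shells, and the Jacobian at `x` is at most
`M exp ((lam n + ε) T(x) + ε K_f(x))`, where `T(x)` is the total modulus of the shells around `x`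
(`log (R_i / r_i)` for a shell around `x`, `log (R_i / |x - a_i|)` for a shell containing `x`).
Isolated singular points and Cantor sets of singular points are allowed.

For all `n ≥ 2`:
* if `lam α < β` and `e^(β K_f)` is locally integrable then `J_f log^α(e + J_f)` and
  `|Df|^n log^(α-1)(e + |Df|)` are locally integrable;
* for `lam = 1` this is sharp: for every `β > 0` a homeomorphism of a ball onto an open set in this
  class, locally Lipschitz off the centre, with integrable differential and integrable
  `e^(β K_f)`, has a non-integrable `J_f log^α(e + J_f)` near the centre for all `α ≥ β`.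

The proof uses the isoperimetric inequality in the form
`n |f(B_r)| ≤ r ∫_(∂B_r) |Df|^n` (proved from the Prékopa-Leindler inequality) in every shell with
a weight which telescopes over the family of shells.
-/

namespace Pool.Agent.Results.MP_92012e_an.ShellGrowth

open Pool.Agent.RayM Pool.Agent.TreeS MeasureTheory Metric Set

theorem result (n : ℕ) (hn : 2 ≤ n) :
    (∀ (lam α β : ℝ) (Ω : Set (E n)) (f : E n → E n), 0 < lam → 0 < β → lam * α < β →
      LocallyShelled lam Ω f →
      LocallyIntegrableOn (fun x => Real.exp (β * distortion f x)) Ω → Regular α Ω f) ∧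
    ∀ β : ℝ, 0 < β → ∃ (R : ℝ) (f : E n → E n), 0 < R ∧ Emb f (ball 0 R) ∧
      LocallyShelled 1 (ball 0 R) f ∧
      LocallyLipschitzOn (ball 0 R \ {0}) f ∧
      IntegrableOn (fun x => ‖fderiv ℝ f x‖) (ball 0 R) ∧
      IntegrableOn (fun x => Real.exp (β * distortion f x)) (ball 0 R) ∧
      ∀ α, β ≤ α → ∀ r, 0 < r →
        ¬ IntegrableOn (fun x => jac f x * Real.log (Real.exp 1 + jac f x) ^ α) (ball 0 r) := by
  refine ⟨fun lam α β Ω f hlam hβ hαβ hf hexp => regular_of_lt hn hlam hf hβ hαβ hexp, ?_⟩
  intro β hβ
  have h1 := integrableOn_exp_exG hn one_pos (exactAngular_id hn) hβ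
  rw [one_mul] at h1
  exact ⟨_, radF n β, Real.exp_pos _, emb_radF hn hβ, locallyShelled_radF hn hβ,
    locallyLipschitzOn_exG (angular_id hn) hβ, integrableOn_norm_exG hn (angular_id hn) hβ, h1,
    fun α hα r hr => not_jlog_exG hn one_pos (exactAngular_id hn) hβ hα hr⟩

end Pool.Agent.Results.MP_92012e_an.ShellGrowth
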